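import Mathlib
import Pool.Agent.V1189.SC.Cons

/-!
# Common linear recurrences of the digits of independent tuples of algebraic numbers

Let `α_1, …, α_n` be real algebraic numbers such that `1, α_1, …, α_n` are linearly independent over
`ℚ`. In every base the digits of the `n` numbers are as independent of each other with respect to
linear recurrences as those of `n` random numbers:

(1) the joint linear complexity (the least order of a linear recurrence over `ℚ` which is satisfied
by the first `L` digits of all the `n` numbers) is `n / (n + 1) * L + o(L)`, uniformly in the base;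

(2) after changes of the digits in at most `k` places it is still at least
`L / (μ + μ^2 + … + μ^(k+1)) - C √(L log L)`, for every `μ > 1 + 1/n`, with `C` independent of the base
and of `k`;

(3) there are no polynomials `g, h_1, …, h_n`, not all zero, of degree smaller than
`(1 / (n + 1) - ε) L` such that `g + h_1 D_1 + … + h_n D_n` is divisible by `X ^ (L + 1)`, where
`D_j = a_1 X + … + a_L X ^ L` is formed with the digits of `α_j`; there are some of degree
`(1 / (n + 1) + ε) L`.

The method of the starting file `MP_7e9a3a_nt.CommonRecurrence` (powers of `e`) is combined with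
Schmidt's theorem on linear forms with algebraic coefficients, which is derived in
`Pool/Agent/V1189/SC/Schmidt.lean` from the subspace theorem of the starting library.
-/

set_option autoImplicit false

namespace Pool.Agent.Results.MP_c8ecb2_nt.CommonRecurrences

open Finset Polynomial

/-- the `i`-th digit of `x` after the point in base `b` -/
noncomputable def digit (b : ℕ) (x : ℝ) (i : ℕ) : ℤ := ⌊x * (b : ℝ) ^ i⌋ % (b : ℤ)

/-- The terms `1, …, L` of the sequences `s_1, …, s_n` satisfy one common linear recurrence of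
order `m` over `ℚ`: `s_j(i+m) = c_0 s_j(i) + … + c_(m-1) s_j(i+m-1)` for all `j` and
`1 ≤ i ≤ L - m`, with the same coefficients for all `j`. -/
def CommonRecurrence {n : ℕ} (s : Fin n → ℕ → ℤ) (L m : ℕ) : Prop :=
  ∃ c : ℕ → ℚ, ∀ (j : Fin n) (i : ℕ), 1 ≤ i → i + m ≤ L →
    (s j (i + m) : ℚ) = ∑ l ∈ range m, c l * (s j (i + l) : ℚ)

/-- The least order of a common linear recurrence which is satisfied by the first `L` digits of
`x_1, …, x_n` in base `b` after changes in at most `k` of the places `1, …, L` (in each of these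
places the digits of all the `n` numbers may be replaced by integers between `-b` and `b`). -/
noncomputable def commonOrder (b : ℕ) {n : ℕ} (x : Fin n → ℝ) (k L : ℕ) : ℕ :=
  sInf {m | ∃ s : Fin n → ℕ → ℤ, (∀ j i, |s j i| ≤ b) ∧
    ((Icc 1 L).filter fun i => ∃ j, s j i ≠ digit b (x j) i).card ≤ k ∧ CommonRecurrence s L m}

/-- the polynomial `a_1 X + a_2 X^2 + ⋯ + a_L X^L`, where `a_i` is the `i`-th digit of `x` after
the point in base `b` -/
noncomputable def digitPoly (b : ℕ) (x : ℝ) (L : ℕ) : ℚ[X] :=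
  ∑ i ∈ Icc 1 L, C (digit b x i : ℚ) * X ^ i

/-- the least `k` for which there are polynomials `g, h_1, …, h_n` over `ℚ` of degree `≤ k`, not all
zero, such that `g + h_1 D_1 + … + h_n D_n` is divisible by `X ^ (L + 1)` -/
noncomputable def linComplexity (b : ℕ) {n : ℕ} (x : Fin n → ℝ) (L : ℕ) : ℕ :=
  sInf {k | ∃ (g : ℚ[X]) (h : Fin n → ℚ[X]), (g ≠ 0 ∨ h ≠ 0) ∧ g.natDegree ≤ k ∧
    (∀ s, (h s).natDegree ≤ k) ∧ X ^ (L + 1) ∣ g + ∑ s, h s * digitPoly b (x s) L}

/-- **Common recurrences.** See the text at the beginning of the file. -/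
theorem result (n : ℕ) (hn : 1 ≤ n) (α : Fin n → ℝ) (halg : ∀ j, IsAlgebraic ℚ (α j))
    (hli : LinearIndependent ℚ (Fin.cons 1 α : Fin (n + 1) → ℝ)) :
    -- (1)
    (∀ ε : ℝ, 0 < ε → ∃ L₀ : ℕ, ∀ L : ℕ, L₀ ≤ L → ∀ b : ℕ, 2 ≤ b →
      |(commonOrder b α 0 L : ℝ) - n / ((n : ℝ) + 1) * L| ≤ ε * L) ∧
    -- (2)
    (∀ μ : ℝ, 1 + 1 / (n : ℝ) < μ → ∃ C : ℝ, 0 < C ∧ ∀ b : ℕ, 2 ≤ b → ∀ k L : ℕ,
      (L : ℝ) ≤ (∑ i ∈ range (k + 1), μ ^ (i + 1)) *
        (commonOrder b α k L + C * Real.sqrt (((commonOrder b α k L : ℝ) + 1) *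
          Real.log ((commonOrder b α k L : ℝ) + 2)))) ∧
    -- (3)
    (∀ ε : ℝ, 0 < ε → ∃ L₀ : ℕ, ∀ L : ℕ, L₀ ≤ L → ∀ b : ℕ, 2 ≤ b →
      |(linComplexity b α L : ℝ) - L / (n + 1)| < ε * L) :=
  ⟨(Pool.Agent.V1189.SC.common_order n hn α halg hli).1,
    (Pool.Agent.V1189.SC.common_order n hn α halg hli).2,
    fun ε hε => Pool.Agent.V1189.SC.lin_complexity n α halg hli ε hε⟩

end Pool.Agent.Results.MP_c8ecb2_nt.CommonRecurrences
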