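import Pool.Agent.V11226.SM.Fin
import Pool.Agent.V11226.SM.Fin2
import Pool.Agent.V11226.SM.QAlg
import Pool.Agent.V1189.SC.Cons

set_option autoImplicit false

/-!
# Multiples of an independent tuple of algebraic numbers by numbers with restricted digits

Fix a base `a ≥ 2`.  For digit sets `D 0, D 1, … ⊆ {0, …, a - 1}` with at least two elements each let
`digs a D N` be the set of the `m < a ^ N` whose digit number `i` in base `a` belongs to `D i` for all
`i < N`.  Let `α_1, …, α_n` be real algebraic numbers such that `1, α_1, …, α_n` are linearly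
independent over `ℚ`.  We prove, with a power saving, that for almost all `m ∈ digs a D N` all the
`n × k` digit matrices in base `a` of `y_1 + m α_1, …, y_n + m α_n` stand with the right frequency
along every set `J ⊆ {0, …, N - 1}` of positions to the left of the point, and all the `n × k` digit
matrices in every base `b` stand with the right frequency along every set `J ⊆ {1, …, P}` of positions
to the right of the point if `P / N` is small and `|J|` is large; without the power saving the latter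
holds even with `P = A N` for any fixed `A`.  All this is uniform in the digit sets, in `J` and in the
real numbers `y_1, …, y_n`.
(The diophantine input is Schmidt's theorem on linear forms, from
the library file `Pool/Agent/V1189/SC/Cons.lean` of helper89.)
-/

namespace Pool.Agent.Results.MP_c8ecb2_nt.DigitRestrictedTuples

open Finset Pool.Agent.V11226.SM

/-- The number of the positions `j ∈ J` at which for every `i` the word of the `k` digits of `z i` in
base `b` at the positions `j + k - 1, …, j` (the coefficients of `b ^ (j + k - 1), …, b ^ j`), read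
as a number, is `w i`. -/
noncomputable def occ {n : ℕ} (b k : ℕ) (J : Finset ℕ) (z : Fin n → ℝ) (w : Fin n → ℕ) : ℕ :=
  (J.filter (fun j => ∀ i, ⌊z i / (b : ℝ) ^ j⌋ % ((b ^ k : ℕ) : ℤ) = (w i : ℤ))).card

/-- The number of the `j ∈ J` for which for every `i` the word of the `k` digits of `z i` in base `b`
at the places `j + 1, …, j + k` after the point, read as a number, is `w i`. -/
noncomputable def occAfter {n : ℕ} (b k : ℕ) (J : Finset ℕ) (z : Fin n → ℝ) (w : Fin n → ℕ) : ℕ :=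
  (J.filter (fun j => ∀ i, ⌊(b : ℝ) ^ (j + k) * z i⌋ % ((b ^ k : ℕ) : ℤ) = (w i : ℤ))).card

/-- the diophantine input -/
theorem input (n : ℕ) (α : Fin n → ℝ) (halg : ∀ j, IsAlgebraic ℚ (α j))
    (hli : LinearIndependent ℚ (Fin.cons 1 α : Fin (n + 1) → ℝ)) :
    ∃ c : ℝ, 0 < c ∧ ∀ H : Fin n → ℤ, H ≠ 0 → ∀ p : ℤ,
      c / (∑ i, |(H i : ℝ)|) ^ (n + 1) ≤ |∑ i, (H i : ℝ) * α i - p| := by
  obtain ⟨c, hc, hM⟩ := Pool.Agent.V1189.SC.measL n α halg hli 1 one_pos
  set A : ℝ := ∑ i, |α i| with hA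
  have hA0 : 0 ≤ A := sum_nonneg fun _ _ => abs_nonneg _
  have hp : 0 < (A + 1) ^ (n + 1) := by positivity
  refine ⟨min 1 (c / (A + 1) ^ (n + 1)), lt_min one_pos (by positivity), ?_⟩
  intro H hH p
  set S : ℝ := ∑ i, |(H i : ℝ)| with hS
  have hS1 : 1 ≤ S := by
    obtain ⟨i, hi⟩ : ∃ i, H i ≠ 0 := by
      by_contra hcon
      push Not at hcon
      exact hH (funext hcon)
    have h1 : (1 : ℝ) ≤ |(H i : ℝ)| := by
      have := Int.one_le_abs hi
      exact_mod_cast this
    exact h1.trans (single_le_sum (f := fun i => |(H i : ℝ)|) (fun _ _ => abs_nonneg _)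
      (mem_univ i))
  have hS0 : 0 < S := by linarith
  have hSp : 0 < S ^ (n + 1) := by positivity
  have hHα : |∑ i, (H i : ℝ) * α i| ≤ A * S := by
    calc |∑ i, (H i : ℝ) * α i| ≤ ∑ i, |(H i : ℝ) * α i| := abs_sum_le_sum_abs _ _
      _ = ∑ i, |(H i : ℝ)| * |α i| := sum_congr rfl fun i _ => abs_mul _ _
      _ ≤ ∑ i, S * |α i| := by
          refine sum_le_sum fun i _ => mul_le_mul_of_nonneg_right ?_ (abs_nonneg _)
          exact single_le_sum (f := fun i => |(H i : ℝ)|) (fun _ _ => abs_nonneg _) (mem_univ i)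
      _ = A * S := by rw [hA, sum_mul]; exact sum_congr rfl fun i _ => mul_comm _ _
  rcases le_or_gt |(p : ℝ)| ((A + 1) * S) with h | h
  · have hX : 1 ≤ (A + 1) * S := by nlinarith
    have h1 := hM (-p) H (Or.inr hH) ((A + 1) * S) hX (by push_cast; rw [abs_neg]; exact h)
      (fun s => by
        have h2 : |(H s : ℝ)| ≤ S :=
          single_le_sum (f := fun i => |(H i : ℝ)|) (fun _ _ => abs_nonneg _) (mem_univ s)
        nlinarith)
    have e1 : ((A + 1) * S) ^ ((n : ℝ) + 1) = (A + 1) ^ (n + 1) * S ^ (n + 1) := by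
      rw [← mul_pow]
      exact_mod_cast Real.rpow_natCast ((A + 1) * S) (n + 1)
    have e2 : (((-p : ℤ) : ℝ)) + ∑ s, (H s : ℝ) * α s = ∑ i, (H i : ℝ) * α i - p := by
      push_cast; ring
    rw [e1, e2] at h1
    rw [div_le_iff₀ hSp]
    refine (min_le_right _ _).trans ?_
    rw [div_le_iff₀ hp]
    linarith
  · have h1 : 1 ≤ |∑ i, (H i : ℝ) * α i - p| := by
      have h2 := abs_sub_abs_le_abs_sub (p : ℝ) (∑ i, (H i : ℝ) * α i)
      rw [abs_sub_comm] at h2
      nlinarith
    refine le_trans ?_ h1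
    rw [div_le_one hSp]
    exact (min_le_left _ _).trans (one_le_pow₀ hS1)

theorem irr (n : ℕ) (α : Fin n → ℝ)
    (hli : LinearIndependent ℚ (Fin.cons 1 α : Fin (n + 1) → ℝ)) (H : Fin n → ℤ) (hH : H ≠ 0) :
    Irrational (∑ j, (H j : ℝ) * α j) := by
  rintro ⟨r, hr⟩
  rw [Fintype.linearIndependent_iff] at hli
  have h := hli (Fin.cons (-r) (fun i => (H i : ℚ))) (by
    rw [Fin.sum_univ_succ]
    simp only [Fin.cons_zero, Fin.cons_succ, Rat.smul_def]
    push_cast
    rw [← hr]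
    ring)
  apply hH
  funext i
  have h1 := h i.succ
  simpa using h1

open Classical in
/-- **Multiples of tuples of algebraic numbers by numbers with restricted digits.**  For every base
`a ≥ 2` and every `n` there is `δ > 0` with the following property.  Let `α_1, …, α_n` be real
algebraic numbers for which `1, α_1, …, α_n` are linearly independent over `ℚ`, let `k ≥ 1`.

(1) There is `C` such that, whenever `0 < ε ≤ 1`, `D 0, D 1, …` are sets of at least two digits in
base `a`, `J ⊆ {0, …, N - 1}` is nonempty and `y_1, …, y_n` are real: for all but at most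
`C ε ^ (-(6 n + 5)) |J| ^ (-δ) |digs a D N|` of the `m ∈ digs a D N`, the frequency in `J` of every
`n × k` digit matrix (with rows `w_1, …, w_n`) in the expansions of `y_1 + m α_1, …, y_n + m α_n` in
base `a` to the left of the point differs from `a ^ (-k n)` by at most `ε`.

(2) For every base `b ≥ 2` there is `C` such that, whenever `0 < ε ≤ 1`, `N ≥ 1`, `D 0, D 1, …` are
sets of at least two digits in base `a`, `J ⊆ {0, …, P - 1}` is nonempty and `y_1, …, y_n` are real:
for all but at most `C ε ^ (-(6 n + 5)) (1 / |J| + (P / N) ^ δ) |digs a D N|` of the `m ∈ digs a D N`,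
the frequency in `J` of every `n × k` digit matrix in the expansions of
`y_1 + m α_1, …, y_n + m α_n` in base `b` after the point differs from `b ^ (-k n)` by at most
`ε`.

(3) For every base `b ≥ 2`, every `A`, every `0 < ε ≤ 1` and every `η > 0` there are `N₀` and `J₀` such
that for all `N ≥ N₀`, all sets `D 0, D 1, …` of at least two digits in base `a`, all sets
`J ⊆ {0, …, A N - 1}` with at least `J₀` elements and all real `y_1, …, y_n`: for all but at most
`η |digs a D N|` of the `m ∈ digs a D N`, the frequency in `J` of every `n × k` digit matrix in the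
expansions of `y_1 + m α_1, …, y_n + m α_n` in base `b` after the point differs from
`b ^ (-k n)` by at most `ε`. -/
theorem result (a n : ℕ) (ha : 2 ≤ a) :
    (∃ δ : ℝ, 0 < δ ∧ ∀ α : Fin n → ℝ,
      (∀ j, IsAlgebraic ℚ (α j)) → LinearIndependent ℚ (Fin.cons 1 α : Fin (n + 1) → ℝ) →
      ∀ k : ℕ, 1 ≤ k → ∃ C : ℝ, 0 < C ∧
      ∀ ε : ℝ, 0 < ε → ε ≤ 1 → ∀ N : ℕ, ∀ D : ℕ → Finset ℕ,
      (∀ i, D i ⊆ range a ∧ 2 ≤ (D i).card) → ∀ J : Finset ℕ, J.Nonempty → (∀ j ∈ J, j < N) →
      ∀ y : Fin n → ℝ,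
      (((digs a D N).filter (fun m : ℕ => ∃ w : Fin n → ℕ, (∀ i, w i < a ^ k) ∧
        ε < |(occ a k J (fun i => y i + (m : ℝ) * α i) w : ℝ) / J.card -
          1 / (a : ℝ) ^ (k * n)|)).card : ℝ) ≤
        C / ε ^ (6 * n + 5) * (J.card : ℝ) ^ (-δ) * ((digs a D N).card : ℝ)) ∧
    (∃ δ : ℝ, 0 < δ ∧ ∀ α : Fin n → ℝ,
      (∀ j, IsAlgebraic ℚ (α j)) → LinearIndependent ℚ (Fin.cons 1 α : Fin (n + 1) → ℝ) →
      ∀ k : ℕ, 1 ≤ k → ∀ b : ℕ, 2 ≤ b → ∃ C : ℝ, 0 < C ∧
      ∀ ε : ℝ, 0 < ε → ε ≤ 1 → ∀ N : ℕ, 1 ≤ N → ∀ D : ℕ → Finset ℕ,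
      (∀ i, D i ⊆ range a ∧ 2 ≤ (D i).card) → ∀ P : ℕ, ∀ J : Finset ℕ, J.Nonempty →
      (∀ j ∈ J, j < P) → ∀ y : Fin n → ℝ,
      (((digs a D N).filter (fun m : ℕ => ∃ w : Fin n → ℕ, (∀ i, w i < b ^ k) ∧
        ε < |(occAfter b k J (fun i => y i + (m : ℝ) * α i) w : ℝ) / J.card -
          1 / (b : ℝ) ^ (k * n)|)).card : ℝ) ≤
        C / ε ^ (6 * n + 5) * (1 / (J.card : ℝ) + ((P : ℝ) / N) ^ δ) *
          ((digs a D N).card : ℝ)) ∧
    (∀ α : Fin n → ℝ,
      (∀ j, IsAlgebraic ℚ (α j)) → LinearIndependent ℚ (Fin.cons 1 α : Fin (n + 1) → ℝ) →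
      ∀ k : ℕ, 1 ≤ k → ∀ b : ℕ, 2 ≤ b → ∀ A : ℕ, ∀ ε : ℝ, 0 < ε → ε ≤ 1 → ∀ η : ℝ, 0 < η →
      ∃ N₀ J₀ : ℕ, ∀ N : ℕ, N₀ ≤ N → ∀ D : ℕ → Finset ℕ,
      (∀ i, D i ⊆ range a ∧ 2 ≤ (D i).card) → ∀ J : Finset ℕ, J₀ ≤ J.card →
      (∀ j ∈ J, j < A * N) → ∀ y : Fin n → ℝ,
      (((digs a D N).filter (fun m : ℕ => ∃ w : Fin n → ℕ, (∀ i, w i < b ^ k) ∧
        ε < |(occAfter b k J (fun i => y i + (m : ℝ) * α i) w : ℝ) / J.card -
          1 / (b : ℝ) ^ (k * n)|)).card : ℝ) ≤ η * ((digs a D N).card : ℝ)) := by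
  refine ⟨⟨kap a (n + 1), kap_pos a ha (n + 1), fun α halg hli k hk => ?_⟩,
    ⟨2 * kap a (n + 1), mul_pos two_pos (kap_pos a ha (n + 1)), fun α halg hli k hk b hb => ?_⟩,
    fun α halg hli k hk b hb A ε hε0 hε1 η hη => ?_⟩
  · obtain ⟨c, hc, hα⟩ := input n α halg hli
    obtain ⟨C, hC, h⟩ := gen a ha n α c hc (n + 1) hα k hk
    refine ⟨C, hC, ?_⟩
    intro ε hε0 hε1 N D hD J hJne hJ y
    have h1 := h ε hε0 hε1 N D hD y J hJne hJ
    rw [pow_mul]
    exact h1
  · obtain ⟨c, hc, hα⟩ := input n α halg hli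
    obtain ⟨C, hC, h⟩ := genA a b ha hb n α c hc (n + 1) hα k hk
    refine ⟨C, hC, ?_⟩
    intro ε hε0 hε1 N hN D hD P J hJne hJ y
    have h1 := h ε hε0 hε1 N hN D hD y P J hJne hJ
    rw [pow_mul]
    exact h1
  · rw [pow_mul]
    exact qalg a b ha hb n α halg (irr n α hli) k hk A ε η hε0 hε1 hη

end Pool.Agent.Results.MP_c8ecb2_nt.DigitRestrictedTuples
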