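import Pool.Agent.V1121.PG.Padic
import Pool.Agent.V1121.PG.EPow

set_option autoImplicit false
set_option maxHeartbeats 4000000

/-! # MP_c8ecb2_nt: linear combinations of a tuple with missing words

By Weyl's criterion a tuple `α = (α_1, …, α_n)` is normal to base `b` if and only if all its integer combinations
`m · α = ∑ m_i α_i`, `m ∈ ℤ ^ n`, `m ≠ 0`, are normal to base `b`. Let `1, α_1, …, α_n` be linearly independent over `ℚ` and
call `m` exceptional if in some base `g ≤ G` some word of `K` digits stands only finitely often in the expansion of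
`x + m · α`. We prove that the exceptional vectors have no additive structure: `N` exceptional vectors with at least
`N ^ 3 / T` additive quadruples satisfy `log N ≤ C (1 + log T) ^ (2 + η)`, and a finite set `M ⊆ ℤ ^ n` one of whose
iterated sumsets is small, `|k M| ≤ k ^ D |M|`, contains few exceptional vectors. The constants do not depend on
`n`, on the tuple and on `x`.
-/

open scoped Pointwise

namespace Pool.Agent.Results.MP_c8ecb2_nt.LinearCombinations

/-- the `n`-fold sumset `A + ... + A` -/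
def fold {G : Type} [AddCommGroup G] [DecidableEq G] (n : ℕ) (A : Finset G) : Finset G :=
  (Fintype.piFinset fun _ : Fin n => A).image fun f => ∑ i, f i

/-- the `j`-th digit of `y` after the point in base `g` -/
noncomputable def digit (g : ℕ) (y : ℝ) (j : ℕ) : ℤ := ⌊y * (g : ℝ) ^ j⌋ % (g : ℤ)

/-- the word `w` of `K` digits stands in the expansion of `y` in base `g` right after the `i`-th digit -/
def Stands (g K : ℕ) (w : Fin K → Fin g) (y : ℝ) (i : ℕ) : Prop :=
  ∀ s : Fin K, digit g y (i + s + 1) = ((w s : ℕ) : ℤ)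

/-- every word of `K` digits stands infinitely often in the expansion of `y` in base `g` -/
def AllWords (g K : ℕ) (y : ℝ) : Prop :=
  ∀ w : Fin K → Fin g, {i : ℕ | Stands g K w y i}.Infinite

/-- in some base `g ≤ G` some word of `K` digits stands only finitely often in the expansion of `y` -/
def Exceptional (G K : ℕ) (y : ℝ) : Prop := ∃ g : ℕ, 2 ≤ g ∧ g ≤ G ∧ ¬ AllWords g K y

open Pool.Agent.TH869.PAL Pool.Agent.Y940.PA Pool.Agent.V1121.PG

lemma floor_div (z : ℝ) (b : ℕ) (hb : 0 < b) : ⌊z / b⌋ = ⌊z⌋ / (b : ℤ) := by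
  have hbR : (0:ℝ) < b := by exact_mod_cast hb
  have hbZ : (0:ℤ) < b := by exact_mod_cast hb
  rw [Int.floor_eq_iff]
  have h1 := Int.floor_le z
  have h2 := Int.lt_floor_add_one z
  have h3 := Int.emod_nonneg ⌊z⌋ hbZ.ne'
  have h4 := Int.emod_lt_of_pos ⌊z⌋ hbZ
  have h5 := Int.mul_ediv_add_emod ⌊z⌋ (b:ℤ)
  have h5' : (b:ℝ) * ((⌊z⌋ / (b:ℤ) : ℤ) : ℝ) + ((⌊z⌋ % (b:ℤ) : ℤ) : ℝ) = (⌊z⌋ : ℝ) := by exact_mod_cast h5
  have h3' : (0:ℝ) ≤ ((⌊z⌋ % (b:ℤ) : ℤ) : ℝ) := by exact_mod_cast h3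
  have h4' : ((⌊z⌋ % (b:ℤ) : ℤ) : ℝ) + 1 ≤ (b:ℝ) := by exact_mod_cast h4
  constructor
  · rw [le_div_iff₀ hbR]
    nlinarith
  · rw [div_lt_iff₀ hbR]
    nlinarith

lemma stands_of_near (g K : ℕ) (hg : 2 ≤ g) (w : Fin K → Fin g) (y : ℝ) (i : ℕ) (n : ℤ)
    (h : |((g:ℝ)^i * y - (((finFunctionFinEquiv (fun t => w t.rev) : Fin (g ^ K)) : ℕ) + 1/2) / (g:ℝ)^K) - n| <
      1 / (2 * (g:ℝ)^K)) : Stands g K w y i := by
  obtain ⟨v, hv⟩ : ∃ v : Fin (g^K), v = finFunctionFinEquiv (fun t => w t.rev) := ⟨_, rfl⟩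
  rw [← hv] at h
  have hg0 : (0:ℝ) < g := by exact_mod_cast (by omega : 0 < g)
  have hgK : (0:ℝ) < (g:ℝ)^K := by positivity
  have hfl : ⌊y * (g:ℝ)^(i+K)⌋ = (g:ℤ)^K * n + ((v : ℕ) : ℤ) := by
    rw [Int.floor_eq_iff]
    rw [abs_lt] at h
    obtain ⟨h1, h2⟩ := h
    have e1 : y * (g:ℝ)^(i+K) = (g:ℝ)^K * ((g:ℝ)^i * y) := by rw [pow_add]; ring
    have e2 : (g:ℝ)^K * ((((v:ℕ):ℝ) + 1/2) / (g:ℝ)^K) = ((v:ℕ):ℝ) + 1/2 := by
      field_simp
    have e3 : (g:ℝ)^K * (1 / (2 * (g:ℝ)^K)) = 1/2 := by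
      field_simp
    have h1' := mul_lt_mul_of_pos_left h1 hgK
    have h2' := mul_lt_mul_of_pos_left h2 hgK
    have e4 : (g:ℝ)^K * (((g:ℝ)^i * y - (((v:ℕ):ℝ) + 1/2) / (g:ℝ)^K) - n) =
      y * (g:ℝ)^(i+K) - (((v:ℕ):ℝ) + 1/2) - (g:ℝ)^K * n := by
      rw [mul_sub, mul_sub, e2, e1]
    rw [e4] at h1' h2'
    rw [mul_neg, e3] at h1'
    rw [e3] at h2'
    push_cast
    constructor <;> linarith
  intro s
  unfold digit
  obtain ⟨j, hj⟩ : ∃ j : ℕ, j = ((Fin.rev s : Fin K) : ℕ) := ⟨_, rfl⟩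
  have hjK : j + s + 1 = K := by
    rw [hj, Fin.val_rev]
    have := s.2
    omega
  have e5 : y * (g:ℝ)^(i + s + 1) = y * (g:ℝ)^(i+K) / ((g^j : ℕ) : ℝ) := by
    have : i + K = (i + s + 1) + j := by omega
    rw [this, pow_add _ (i + s + 1) j]
    push_cast
    field_simp
  rw [e5, floor_div _ _ (by positivity), hfl]
  have e6 : (g:ℤ)^K * n + ((v : ℕ) : ℤ) = ((v:ℕ):ℤ) + ((g^j : ℕ):ℤ) * ((g:ℤ) * ((g:ℤ)^(s:ℕ) * n)) := by
    have : (g:ℤ)^K = (g:ℤ)^j * ((g:ℤ) * (g:ℤ)^(s:ℕ)) := by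
      rw [← pow_succ', ← pow_add]
      congr 1
      omega
    rw [this]
    push_cast
    ring
  have hgj : ((g^j : ℕ):ℤ) ≠ 0 := by
    have : 0 < g^j := by positivity
    exact_mod_cast this.ne'
  rw [e6, Int.add_mul_ediv_left _ _ hgj, Int.add_mul_emod_self_left]
  have e7 : (((v:ℕ):ℤ) / ((g^j:ℕ):ℤ)) % (g:ℤ) = (((v:ℕ) / g^j % g : ℕ) : ℤ) := by push_cast; rfl
  rw [e7]
  have e8 : finFunctionFinEquiv.symm v (Fin.rev s) = w s := by
    rw [hv, Equiv.symm_apply_apply, Fin.rev_rev]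
  have e9 : ((finFunctionFinEquiv.symm v (Fin.rev s) : Fin g) : ℕ) = (v:ℕ) / g^j % g := by
    rw [hj]; rfl
  rw [← e9, e8]

lemma badP_of_not {g K : ℕ} (hg : 2 ≤ g) {y : ℝ} (h : ¬ AllWords g K y) :
    BadP g (1 / (2 * (g:ℝ)^K)) y := by
  unfold AllWords at h
  push Not at h
  obtain ⟨w, hw⟩ := h
  obtain ⟨I, hI⟩ := hw.bddAbove
  refine ⟨(((finFunctionFinEquiv (fun t => w t.rev) : Fin (g ^ K)) : ℕ) + 1/2) / (g:ℝ)^K, I + 1, ?_⟩
  intro i hi n
  by_contra hcon
  push Not at hcon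
  have h1 := stands_of_near g K hg w y i n hcon
  have h2 : i ≤ I := hI h1
  omega

open Classical in
/-- power saving on arithmetic progressions, all bases `g ≤ G` -/
theorem ap_all (G K : ℕ) (hG : 2 ≤ G) (hK : 1 ≤ K) : ∃ D c : ℝ, 0 ≤ D ∧ 0 < c ∧ c ≤ 1 ∧
    ∀ x θ : ℝ, θ ∉ {t : ℝ | ¬ Irrational t} → ∀ L : ℕ, 1 ≤ L →
      (((Finset.range L).filter (fun j : ℕ => x + j • θ ∈ {y | Exceptional G K y})).card : ℝ) ≤
        D * L * (L:ℝ) ^ (-c) := by
  obtain ⟨c, C, hc, hc1, hC, h⟩ := Pool.Agent.Y940.PA.ap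
  have hGR : (2:ℝ) ≤ G := by exact_mod_cast hG
  have hKR : (1:ℝ) ≤ K := by exact_mod_cast hK
  have hGK : (1:ℝ) ≤ (G:ℝ)^K := one_le_pow₀ (by linarith)
  have hl2 := Real.log_two_gt_d9
  have hlG : Real.log 2 ≤ Real.log G := Real.log_le_log (by norm_num) hGR
  have hlG0 : 0 < Real.log G := by linarith
  have hden : 1 ≤ 6 * (G:ℝ)^K * K * Real.log G := by
    have h1 : (1:ℝ) ≤ (G:ℝ)^K * K := by nlinarith
    nlinarith
  refine ⟨(G + 1) * (2 * C * (G:ℝ)^K), c / (6 * (G:ℝ)^K * K * Real.log G), by positivity, by positivity,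
    ?_, ?_⟩
  · rw [div_le_one (by linarith)]
    linarith
  intro x θ hθ L hL
  have hirr : Irrational θ := by
    by_contra hcon
    exact hθ hcon
  have hLr : (1:ℝ) ≤ L := by exact_mod_cast hL
  -- one base
  have hone : ∀ g ∈ Finset.range (G + 1), (((Finset.range L).filter
      (fun j : ℕ => 2 ≤ g ∧ ¬ AllWords g K (x + j • θ))).card : ℝ) ≤
        (2 * C * (G:ℝ)^K) * L * (L:ℝ) ^ (-(c / (6 * (G:ℝ)^K * K * Real.log G))) := by
    intro g hg
    have hgG : g ≤ G := by
      have := Finset.mem_range.1 hg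
      omega
    by_cases hg2 : 2 ≤ g
    · have hgR : (2:ℝ) ≤ g := by exact_mod_cast hg2
      have hgGR : (g:ℝ) ≤ G := by exact_mod_cast hgG
      have hgK0 : (0:ℝ) < (g:ℝ)^K := by positivity
      have hgK : (1:ℝ) ≤ (g:ℝ)^K := one_le_pow₀ (by linarith)
      have hlg : 0 < Real.log g := Real.log_pos (by linarith)
      set ε : ℝ := 1 / (2 * (g:ℝ)^K) with hε
      have hε0 : 0 < ε := by positivity
      have hε2 : ε ≤ 1/2 := by
        rw [hε, div_le_div_iff₀ (by positivity) (by norm_num)]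
        linarith
      have hloge : Real.log (g / ε) ≤ 3 * K * Real.log g := by
        have e1 : (g:ℝ) / ε = 2 * (g:ℝ)^(K+1) := by
          rw [hε]
          field_simp
          ring
        rw [e1, Real.log_mul (by norm_num) (by positivity), Real.log_pow]
        have h2 : Real.log 2 ≤ Real.log g := Real.log_le_log (by norm_num) hgR
        push_cast
        nlinarith
      obtain ⟨hlog, _⟩ := Pool.Agent.Y940.PA.log_one hg2 hε0 hε2
      have hlog0 : 0 < Real.log (g/ε) := by linarith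
      have hHB : θ ∉ HB g L := by
        rintro ⟨q, hq1, hq2, j, m, hm⟩
        have h3 : Irrational (((g ^ j * q : ℕ) : ℝ) * θ) :=
          hirr.natCast_mul (Nat.mul_pos (pow_pos (by omega) j) (by omega)).ne'
        apply h3
        refine ⟨(m:ℚ), ?_⟩
        push_cast
        rw [← hm]
        ring
      have h1 := h g hg2 ε hε0 hε2 L x θ hHB L hL le_rfl
      have h2 : (((Finset.range L).filter (fun j : ℕ => 2 ≤ g ∧ ¬ AllWords g K (x + j • θ))).card : ℝ) ≤
          (((Finset.range L).filter (fun j : ℕ => x + j • θ ∈ {β : ℝ | BadP g ε β})).card : ℝ) := by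
        have : ((Finset.range L).filter (fun j : ℕ => 2 ≤ g ∧ ¬ AllWords g K (x + j • θ))).card ≤
            ((Finset.range L).filter (fun j : ℕ => x + j • θ ∈ {β : ℝ | BadP g ε β})).card := by
          apply Finset.card_le_card
          intro j hj
          rw [Finset.mem_filter] at hj ⊢
          exact ⟨hj.1, badP_of_not hg2 hj.2.2⟩
        exact_mod_cast this
      refine h2.trans (h1.trans ?_)
      have hCe : C / ε ≤ 2 * C * (G:ℝ)^K := by
        have e1 : C / ε = 2 * C * (g:ℝ)^K := by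
          rw [hε]
          field_simp
        rw [e1]
        have : (g:ℝ)^K ≤ (G:ℝ)^K := pow_le_pow_left₀ (by linarith) hgGR K
        gcongr
      have hexp : c / (6 * (G:ℝ)^K * K * Real.log G) ≤ c * ε / Real.log (g / ε) := by
        have e1 : c / (6 * (G:ℝ)^K * K * Real.log G) = c * (1 / (2 * (G:ℝ)^K)) / (3 * K * Real.log G) := by
          field_simp
          ring
        rw [e1]
        have h4 : (1:ℝ) / (2 * (G:ℝ)^K) ≤ ε := by
          rw [hε]
          apply one_div_le_one_div_of_le (by positivity)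
          have : (g:ℝ)^K ≤ (G:ℝ)^K := pow_le_pow_left₀ (by linarith) hgGR K
          linarith
        have h5 : Real.log (g / ε) ≤ 3 * K * Real.log G := by
          refine hloge.trans ?_
          have : Real.log g ≤ Real.log G := Real.log_le_log (by linarith) hgGR
          gcongr
        have h6 : c * (1 / (2 * (G:ℝ)^K)) ≤ c * ε := mul_le_mul_of_nonneg_left h4 hc.le
        exact div_le_div₀ (by positivity) h6 hlog0 h5
      have h7 : (L:ℝ) ^ (-(c * ε / Real.log (g / ε))) ≤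
          (L:ℝ) ^ (-(c / (6 * (G:ℝ)^K * K * Real.log G))) :=
        Real.rpow_le_rpow_of_exponent_le hLr (by linarith)
      have h8 : C / ε * L ≤ 2 * C * (G:ℝ)^K * L := mul_le_mul_of_nonneg_right hCe (by linarith)
      exact mul_le_mul h8 h7 (by positivity) (by positivity)
    · have h0 : (Finset.range L).filter (fun j : ℕ => 2 ≤ g ∧ ¬ AllWords g K (x + j • θ)) = ∅ := by
        rw [Finset.filter_eq_empty_iff]
        intro j _ hj
        exact hg2 hj.1
      rw [h0]
      simp only [Finset.card_empty, Nat.cast_zero]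
      positivity
  have hsub : (Finset.range L).filter (fun j : ℕ => x + j • θ ∈ {y | Exceptional G K y}) ⊆
      (Finset.range (G + 1)).biUnion (fun g => (Finset.range L).filter
        (fun j : ℕ => 2 ≤ g ∧ ¬ AllWords g K (x + j • θ))) := by
    intro j hj
    obtain ⟨hj1, g, hg1, hg2, hg3⟩ := Finset.mem_filter.1 hj
    rw [Finset.mem_biUnion]
    exact ⟨g, Finset.mem_range.2 (by omega), Finset.mem_filter.2 ⟨hj1, hg1, hg3⟩⟩
  have h1 : (((Finset.range L).filter (fun j : ℕ => x + j • θ ∈ {y | Exceptional G K y})).card : ℝ) ≤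
      ∑ g ∈ Finset.range (G + 1), (((Finset.range L).filter
        (fun j : ℕ => 2 ≤ g ∧ ¬ AllWords g K (x + j • θ))).card : ℝ) := by
    exact_mod_cast (Finset.card_le_card hsub).trans Finset.card_biUnion_le
  refine h1.trans ((Finset.sum_le_sum hone).trans (le_of_eq ?_))
  rw [Finset.sum_const, Finset.card_range, nsmul_eq_mul]
  push_cast
  ring

/-- there is no nontrivial rational linear relation between `1, α_1, …, α_n` -/
def Indep {n : ℕ} (α : Fin n → ℝ) : Prop := LinearIndependent ℚ (Fin.cons 1 α : Fin (n + 1) → ℝ)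

/-- the linear combination `x + ∑ m_i α_i` -/
noncomputable def comb {n : ℕ} (α : Fin n → ℝ) (x : ℝ) (m : Fin n → ℤ) : ℝ := x + ∑ i, (m i : ℝ) * α i

lemma irr {n : ℕ} {α : Fin n → ℝ} (hα : Indep α) {θ : Fin n → ℤ} (hθ : θ ≠ 0) :
    Irrational (∑ i, (θ i : ℝ) * α i) := by
  rintro ⟨q, hq⟩
  have h1 := Fintype.linearIndependent_iff.1 hα (Fin.cons (-q) (fun i => (θ i : ℚ))) (by
    rw [Fin.sum_univ_succ]
    simp only [Fin.cons_zero, Fin.cons_succ, Rat.smul_def]
    push_cast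
    rw [hq]
    ring)
  apply hθ
  funext i
  have h2 := h1 i.succ
  rw [Fin.cons_succ] at h2
  exact_mod_cast h2

lemma tf {n : ℕ} (k : ℕ) (x : Fin n → ℤ) (hk : k ≠ 0) (h : k • x = 0) : x = 0 := by
  funext i
  have h1 := congrFun h i
  rw [Pi.smul_apply, Pi.zero_apply, nsmul_eq_mul, mul_eq_zero] at h1
  rcases h1 with h1 | h1
  · exact absurd (by exact_mod_cast h1) hk
  · exact h1

open Classical in
lemma ap_vec (G K : ℕ) (hG : 2 ≤ G) (hK : 1 ≤ K) : ∃ D c : ℝ, 0 ≤ D ∧ 0 < c ∧ c ≤ 1 ∧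
    ∀ (n : ℕ) (α : Fin n → ℝ) (x : ℝ), Indep α → ∀ m θ : Fin n → ℤ, θ ∉ ({0} : Set (Fin n → ℤ)) →
      ∀ L : ℕ, 1 ≤ L →
      (((Finset.range L).filter (fun j : ℕ => m + j • θ ∈ {y | Exceptional G K (comb α x y)})).card : ℝ) ≤
        D * L * (L:ℝ) ^ (-c) := by
  obtain ⟨D, c, hD, hc, hc1, h⟩ := ap_all G K hG hK
  refine ⟨D, c, hD, hc, hc1, ?_⟩
  intro n α x hα m θ hθ L hL
  have hθ0 : θ ≠ 0 := fun h0 => hθ h0
  have h1 := h (comb α x m) (∑ i, (θ i : ℝ) * α i) (fun hcon => hcon (irr hα hθ0)) L hL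
  refine le_trans ?_ h1
  have h2 : ((Finset.range L).filter
      (fun j : ℕ => m + j • θ ∈ {y | Exceptional G K (comb α x y)})).card ≤
      ((Finset.range L).filter
        (fun j : ℕ => comb α x m + j • (∑ i, (θ i : ℝ) * α i) ∈ {y | Exceptional G K y})).card := by
    apply Finset.card_le_card
    intro j hj
    rw [Finset.mem_filter] at hj ⊢
    refine ⟨hj.1, ?_⟩
    have e1 : comb α x m + j • (∑ i, (θ i : ℝ) * α i) = comb α x (m + j • θ) := by
      unfold comb
      rw [nsmul_eq_mul, Finset.mul_sum, add_assoc, ← Finset.sum_add_distrib]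
      congr 1
      apply Finset.sum_congr rfl
      intro i _
      rw [Pi.add_apply, Pi.smul_apply, nsmul_eq_mul]
      push_cast
      ring
    rw [e1]
    exact hj.2
  exact_mod_cast h2

open Classical in
/-- Let `G ≥ 2`, `K ≥ 1`. (1) For every `η > 0` there is `C` such that for all `n`, all tuples
`α` with `1, α_1, …, α_n` linearly independent over `ℚ`, all real `x` and all nonempty finite sets `B ⊆ ℤ ^ n` of
exceptional vectors: if `B` has at least `|B| ^ 3 / T` additive quadruples then `log |B| ≤ C (1 + log T) ^ (2 + η)`.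
(2) There are `c, C > 0` such that for all `n`, `α`, `x` as in (1), all `D`, all `k ≥ 2` and all nonempty finite
`M ⊆ ℤ ^ n` with `|k M| ≤ k ^ D |M|` at most `C k ^ (116000 (D + 1) ^ 2) |M| ^ (1 - c / (D + 2))` of the vectors in
`M` are exceptional. -/
theorem result : ∀ G K : ℕ, 2 ≤ G → 1 ≤ K →
    (∀ η : ℝ, 0 < η → ∃ C : ℝ, 0 < C ∧ ∀ (n : ℕ) (α : Fin n → ℝ) (x : ℝ), Indep α →
      ∀ (B : Finset (Fin n → ℤ)) (T : ℝ), 1 ≤ T → B.Nonempty →
      (∀ m ∈ B, Exceptional G K (comb α x m)) →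
      (B.card : ℝ) ^ 3 ≤ T * ((Finset.addEnergy B B : ℕ) : ℝ) →
      Real.log B.card ≤ C * (1 + Real.log T) ^ (2 + η)) ∧
    (∃ c C : ℝ, 0 < c ∧ 0 < C ∧ ∀ (n : ℕ) (α : Fin n → ℝ) (x : ℝ), Indep α →
      ∀ (D k : ℕ) (M : Finset (Fin n → ℤ)), 2 ≤ k → M.Nonempty →
      ((fold k M).card : ℝ) ≤ (k : ℝ) ^ D * M.card →
      ((M.filter (fun m => Exceptional G K (comb α x m))).card : ℝ) ≤
        C * (k : ℝ) ^ (116000 * (D + 1) ^ 2) * (M.card : ℝ) ^ (1 - c / (D + 2))) := by
  intro G K hG hK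
  obtain ⟨D₀, c, hD₀, hc, hc1, hAP⟩ := ap_vec G K hG hK
  refine ⟨?_, ?_⟩
  · intro η hη
    obtain ⟨C₁, hC₁, h⟩ := energy_pow D₀ c η hD₀ hc hc1 hη
    refine ⟨C₁, hC₁, ?_⟩
    intro n α x hα B T hT hB hBE hE
    refine h (fun k y hk hy => tf k y hk hy) {0} {y | Exceptional G K (comb α x y)} ?_ ?_ B T hT hB
      hBE ?_ ?_
    · intro L y hy
      rw [Set.mem_singleton_iff] at hy ⊢
      rw [hy, smul_zero]
    · intro m θ hθ L hL
      convert hAP n α x hα m θ hθ L hL using 1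
    · intro b _ b' _ hne hcon
      exact hne (sub_eq_zero.1 hcon)
    · convert hE using 1
  · refine ⟨c / 842, 1 + 2 * D₀, by positivity, by positivity, ?_⟩
    intro n α x hα D k M hk hM hL
    obtain ⟨q1, q2, q3, q4⟩ := power_params D k hk
    have hkR : (2 : ℝ) ≤ k := by exact_mod_cast hk
    have hln0 : 0 < Real.log k := Real.log_pos (by linarith)
    have hMr : (1:ℝ) ≤ M.card := by exact_mod_cast hM.card_pos
    have hm := main_iter (fun k y hk hy => tf k y hk hy) {0} {y | Exceptional G K (comb α x y)}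
      (by
        intro L y hy
        rw [Set.mem_singleton_iff] at hy ⊢
        rw [hy, smul_zero]) D₀ c hD₀ hc.le hc1 (r := D + 1) (n₀ := k) (K := (k:ℝ)^D) (by omega) hk M
      (M.filter (fun m => Exceptional G K (comb α x m)))
      (by
        intro m θ hθ L hL _
        convert hAP n α x hα m θ hθ L hL using 1) hM
      (by
        have e1 : (fold k M).card = (Pool.Agent.TH513.IS.sm M k).card := by
          unfold fold Pool.Agent.TH513.IS.sm
          convert rfl
        rw [← e1]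
        exact hL) q2 (Finset.filter_subset _ _) (fun b hb => (Finset.mem_filter.1 hb).2)
      (by
        intro b _ b' _ hne hcon
        exact hne (sub_eq_zero.1 hcon))
    refine hm.trans ?_
    have h1 : (2 * (k : ℝ) ^ D) ^ (116000 * (D + 1)) ≤ (k : ℝ) ^ (116000 * (D + 1) ^ 2) := by
      calc (2 * (k : ℝ) ^ D) ^ (116000 * (D + 1)) ≤ ((k : ℝ) ^ (D + 1)) ^ (116000 * (D + 1)) := by
            apply pow_le_pow_left₀ (by positivity)
            rw [pow_succ]
            have : (0 : ℝ) ≤ (k : ℝ) ^ D := by positivity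
            nlinarith
        _ = _ := by
            rw [← pow_mul]
            congr 1
            ring
    have h2 : (M.card : ℝ) ^ (1 - c / (842 * (1 + Real.log (2 * (k : ℝ) ^ D) / Real.log k))) ≤
        (M.card : ℝ) ^ (1 - c / 842 / ((D : ℝ) + 2)) := by
      apply Real.rpow_le_rpow_of_exponent_le hMr
      have hx0 : 0 < 1 + Real.log (2 * (k : ℝ) ^ D) / Real.log k := by
        have : 0 ≤ Real.log (2 * (k : ℝ) ^ D) / Real.log k := div_nonneg q3 hln0.le
        linarith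
      have h3 : c / 842 / ((D : ℝ) + 2) ≤
          c / (842 * (1 + Real.log (2 * (k : ℝ) ^ D) / Real.log k)) := by
        rw [div_div]
        apply div_le_div_of_nonneg_left hc.le (by positivity)
        exact mul_le_mul_of_nonneg_left q4 (by norm_num)
      linarith
    have h3 : (0:ℝ) ≤ 1 + 2 * D₀ := by positivity
    exact mul_le_mul (mul_le_mul_of_nonneg_left h1 h3) h2 (by positivity) (by positivity)

end Pool.Agent.Results.MP_c8ecb2_nt.LinearCombinations
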