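import Mathlib
import Pool.Agent.V1189.RT.AlgWin

/-!
# Linear relations between several windows of the digits of algebraic numbers

Let `α_1, …, α_n` be real algebraic numbers such that `1, α_1, …, α_n` are linearly independent over `ℚ`,
and let `b ≥ 2`. We consider `r` pairwise disjoint windows of `l` consecutive places each among the first
`N` places after the point, and the `n r` words of the digits of the `n` numbers in these windows. Their
joint order is the least `m` such that all the `n r` words satisfy a common nontrivial relation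

  `a_0 s_i + a_1 s_(i+1) + … + a_m s_(i+m) = 0`   (`1 ≤ i ≤ l - m`),   `a_0, …, a_m ∈ ℚ` not all `0`.

By counting equations, it is at most `n r l / (n r + 1) + 1`, and for independent random digits it is
close to this. We prove that for all `ε > 0` there is a constant `C` such that the joint order is at least
`n r l / (n r + 1) - ε N - C` for all `N` and all such windows.
-/

set_option autoImplicit false

namespace Pool.Agent.Results.MP_c8ecb2_nt.SeveralWindows

open Finset

/-- the `i`-th digit of `x` after the point in base `b` -/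
noncomputable def digit (b : ℕ) (x : ℝ) (i : ℕ) : ℤ := ⌊x * (b : ℝ) ^ i⌋ % (b : ℤ)

/-- `r` pairwise disjoint windows of `l` places each among the first `N` places: the `h`-th window
consists of the places `w h + 1, …, w h + l`. -/
structure IsWindows (r : ℕ) (w : Fin r → ℕ) (l N : ℕ) : Prop where
  inside : ∀ h, w h + l ≤ N
  disjoint : ∀ h k, h ≠ k → w h + l ≤ w k ∨ w k + l ≤ w h

/-- The digits of the numbers `α k` in the windows satisfy a common nontrivial linear relation of
order `m`. -/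
def HasRelation {n r : ℕ} (b : ℕ) (α : Fin n → ℝ) (w : Fin r → ℕ) (l m : ℕ) : Prop :=
  ∃ a : ℕ → ℚ, (∃ j ≤ m, a j ≠ 0) ∧ ∀ (k : Fin n) (h : Fin r) (i : ℕ), 1 ≤ i → i + m ≤ l →
    ∑ j ∈ range (m + 1), a j * (digit b (α k) (w h + (i + j)) : ℚ) = 0

/-- the joint order of the words -/
noncomputable def jointOrder {n r : ℕ} (b : ℕ) (α : Fin n → ℝ) (w : Fin r → ℕ) (l : ℕ) : ℕ :=
  sInf {m | HasRelation b α w l m}

lemma hasRelation_self {n r : ℕ} (b : ℕ) (α : Fin n → ℝ) (w : Fin r → ℕ) (l : ℕ) :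
    HasRelation b α w l l :=
  ⟨fun _ => 1, ⟨0, by omega, one_ne_zero⟩, fun k h i h1 h2 => by omega⟩

lemma jointOrder_mem {n r : ℕ} (b : ℕ) (α : Fin n → ℝ) (w : Fin r → ℕ) (l : ℕ) :
    HasRelation b α w l (jointOrder b α w l) :=
  Nat.sInf_mem (s := {m | HasRelation b α w l m}) ⟨l, hasRelation_self b α w l⟩

lemma jointOrder_le {n r : ℕ} (b : ℕ) (α : Fin n → ℝ) (w : Fin r → ℕ) (l : ℕ) :
    jointOrder b α w l ≤ l :=
  Nat.sInf_le (hasRelation_self b α w l)

/-- the upper bound, by counting equations -/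
lemma upper {n r : ℕ} (b : ℕ) (α : Fin n → ℝ) (w : Fin r → ℕ) (l : ℕ) :
    (jointOrder b α w l : ℝ) ≤ ((n * r : ℕ) : ℝ) / ((n * r : ℕ) + 1) * l + 1 := by
  obtain ⟨R, hR⟩ : ∃ R, R = n * r := ⟨_, rfl⟩
  rw [← hR]
  obtain ⟨m, hm⟩ : ∃ m : ℕ, m = (R * l + R) / (R + 1) := ⟨_, rfl⟩
  have hm1 : R * l ≤ (R + 1) * m := by
    have h1 := Nat.div_add_mod (R * l + R) (R + 1)
    have h2 := Nat.mod_lt (R * l + R) (show 0 < R + 1 by omega)
    rw [← hm] at h1
    omega
  have hm2 : (R + 1) * m ≤ R * l + R := by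
    rw [hm]; exact Nat.mul_div_le _ _
  have hrel : HasRelation b α w l m := by
    rcases Nat.lt_or_ge l m with hlm | hlm
    · exact ⟨fun _ => 1, ⟨0, by omega, one_ne_zero⟩, fun k h i h1 h2 => by omega⟩
    let f : (Fin (m + 1) → ℚ) →ₗ[ℚ] ((Fin n × Fin r) × Fin (l - m) → ℚ) :=
      LinearMap.pi fun p => ∑ j : Fin (m + 1),
        (digit b (α p.1.1) (w p.1.2 + (p.2 + 1 + j)) : ℚ) • LinearMap.proj j
    have hker : LinearMap.ker f ≠ ⊥ := by
      apply LinearMap.ker_ne_bot_of_finrank_lt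
      rw [Module.finrank_fintype_fun_eq_card, Module.finrank_fintype_fun_eq_card, Fintype.card_prod,
        Fintype.card_prod, Fintype.card_fin, Fintype.card_fin, Fintype.card_fin, Fintype.card_fin,
        ← hR]
      zify [hlm]
      zify at hm1
      nlinarith
    obtain ⟨a, ha, ha0⟩ := (Submodule.ne_bot_iff _).1 hker
    obtain ⟨j0, hj0⟩ : ∃ j, a j ≠ 0 := by
      by_contra h
      push Not at h
      exact ha0 (funext h)
    obtain ⟨a', ha'⟩ : ∃ a' : ℕ → ℚ, ∀ j : Fin (m + 1), a' j = a j :=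
      ⟨fun j => if h : j < m + 1 then a ⟨j, h⟩ else 0, fun j => dif_pos j.2⟩
    refine ⟨a', ⟨j0, by omega, by rw [ha']; exact hj0⟩, fun k h i h1 h2 => ?_⟩
    have h3 := congrFun (LinearMap.mem_ker.1 ha) ((k, h), (⟨i - 1, by omega⟩ : Fin (l - m)))
    have h4 : ∑ j : Fin (m + 1), a j * (digit b (α k) (w h + (i + j)) : ℚ) = 0 := by
      refine Eq.trans ?_ h3
      simp only [f, LinearMap.pi_apply, LinearMap.sum_apply, LinearMap.smul_apply,
        LinearMap.proj_apply, smul_eq_mul]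
      refine Finset.sum_congr rfl fun j _ => ?_
      rw [mul_comm, show i - 1 + 1 + (j : ℕ) = i + j by omega]
    refine Eq.trans ?_ h4
    rw [Finset.sum_range]
    exact Finset.sum_congr rfl fun j _ => by rw [ha']
  have h1 : jointOrder b α w l ≤ m := Nat.sInf_le hrel
  have h2 : (jointOrder b α w l : ℝ) ≤ m := by exact_mod_cast h1
  have h3 : ((R : ℝ) + 1) * m ≤ R * l + R := by exact_mod_cast hm2
  have hr : (0 : ℝ) < (R : ℝ) + 1 := by positivity
  refine h2.trans ?_
  rw [← mul_le_mul_iff_right₀ hr]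
  have h4 : ((R : ℝ) + 1) * ((R : ℝ) / (R + 1) * l + 1) = R * l + (R + 1) := by
    field_simp
  rw [h4]
  linarith

/-- the lower bound -/
theorem lower (n r : ℕ) (hn : 1 ≤ n) (hr : 1 ≤ r) (α : Fin n → ℝ)
    (halg : ∀ i, IsAlgebraic ℚ (α i))
    (hli : LinearIndependent ℚ (Fin.cons 1 α : Fin (n + 1) → ℝ)) (b : ℕ) (hb : 2 ≤ b) (ε : ℝ)
    (hε : 0 < ε) : ∃ C : ℝ, 0 ≤ C ∧ ∀ (N : ℕ) (w : Fin r → ℕ) (l : ℕ), IsWindows r w l N →
      ((n * r : ℕ) : ℝ) / ((n * r : ℕ) + 1) * l - ε * N - C ≤ jointOrder b α w l := by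
  have hbR : (2 : ℝ) ≤ b := by exact_mod_cast hb
  obtain ⟨C1, hC10, hC1⟩ := Pool.Agent.V1189.RT.algWindows n r b hn hr hb α halg hli (ε / 2)
    (by linarith)
  obtain ⟨R, hR⟩ : ∃ R, R = n * r := ⟨_, rfl⟩
  rw [← hR] at hC1 ⊢
  have hR1 : 1 ≤ R := by rw [hR]; exact Nat.mul_pos hn hr
  have hRR : (1 : ℝ) ≤ R := by exact_mod_cast hR1
  obtain ⟨K, hK0, hK⟩ := Pool.Agent.Results.MP_a49cf6_nt.DigitRecurrences.F_linear 17 (ε / 2)
    (by norm_num) (by linarith)
  refine ⟨C1 + K, by positivity, fun N w l hW => ?_⟩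
  obtain ⟨m, hm⟩ : ∃ m, m = jointOrder b α w l := ⟨_, rfl⟩
  obtain ⟨a, ⟨j1, hj1, haj1⟩, hrel⟩ := jointOrder_mem b α w l
  have hml : m ≤ l := by rw [hm]; exact jointOrder_le _ _ _ _
  rw [← hm] at hj1 hrel ⊢
  have hlN : l ≤ N := by have := hW.inside ⟨0, hr⟩; omega
  obtain ⟨m', hm', hmax⟩ := Finset.exists_max_image ((range (m + 1)).filter fun j => a j ≠ 0) id
    ⟨j1, by rw [mem_filter, mem_range]; exact ⟨by omega, haj1⟩⟩
  rw [mem_filter, mem_range] at hm'
  have hzero : ∀ j, m' < j → j < m + 1 → a j = 0 := by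
    intro j h1 h2
    by_contra h3
    have := hmax j (by rw [mem_filter, mem_range]; exact ⟨h2, h3⟩)
    simp only [id] at this
    omega
  have hmain := hC1 N w (l - (m - m')) m' (fun j => -a j / a m')
    (fun k => by have := hW.inside k; omega)
    (fun i j hij => by
      rcases hW.disjoint i j hij with h | h
      · left; omega
      · right; omega) (fun k h i h1 h2 => by
      have h3 := hrel k h i h1 (by omega)
      have h4 : ∑ j ∈ range (m + 1), a j * (digit b (α k) (w h + (i + j)) : ℚ) =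
          ∑ j ∈ range (m' + 1), a j * (digit b (α k) (w h + (i + j)) : ℚ) := by
        symm
        apply Finset.sum_subset
        · intro j hj
          rw [mem_range] at hj ⊢
          omega
        · intro j hj1 hj2
          rw [mem_range] at hj1 hj2
          rw [hzero j (by omega) hj1, zero_mul]
      rw [h4, Finset.sum_range_succ] at h3
      have h5 : (digit b (α k) (w h + (i + m')) : ℚ) = ∑ j ∈ range m',
          -a j / a m' * (digit b (α k) (w h + (i + j)) : ℚ) := by
        have h6 : ∑ j ∈ range m', -a j / a m' * (digit b (α k) (w h + (i + j)) : ℚ) =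
            -(∑ j ∈ range m', a j * (digit b (α k) (w h + (i + j)) : ℚ)) / a m' := by
          rw [← Finset.sum_neg_distrib, Finset.sum_div]
          exact Finset.sum_congr rfl fun j _ => by ring
        rw [h6, eq_div_iff hm'.2]
        linarith
      exact h5)
  have h2 := hK m'
  have h3 : (m' : ℝ) + 15 * Pool.Agent.W47.JL.err m' ≤
      Pool.Agent.Results.MP_a49cf6_nt.DigitRecurrences.F 17 m' := by
    have h4 := Pool.Agent.W47.JL.err_ge m'
    have h5 : Pool.Agent.Results.MP_a49cf6_nt.DigitRecurrences.F 17 m' =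
      m' + 17 * Pool.Agent.W47.JL.err m' := rfl
    rw [h5]; linarith
  have hm'm : (m' : ℝ) ≤ m := by exact_mod_cast (by omega : m' ≤ m)
  have hmN : (m : ℝ) ≤ N := by exact_mod_cast hml.trans hlN
  have h4 : (m' : ℝ) + 15 * Pool.Agent.W47.JL.err m' ≤ m' + ε / 2 * N + K := by nlinarith
  have hcast : ((l - (m - m') : ℕ) : ℝ) = l - m + m' := by
    rw [Nat.cast_sub (by omega), Nat.cast_sub (by omega)]
    ring
  rw [hcast] at hmain
  have hr1 : (0 : ℝ) < (R : ℝ) + 1 := by positivity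
  have h6 : ((R : ℝ) + 1) * (m' + 15 * Pool.Agent.W47.JL.err m') ≤
      (R + 1) * (m' + ε / 2 * N + K) := mul_le_mul_of_nonneg_left h4 hr1.le
  rw [← mul_le_mul_iff_right₀ hr1]
  have h7 : ((R : ℝ) + 1) * ((R : ℝ) / (R + 1) * l - ε * N - (C1 + K)) = R * l - (R + 1) * (ε * N) -
      (R + 1) * (C1 + K) := by
    rw [mul_sub, mul_sub, ← mul_assoc]
    congr 3
    field_simp
  rw [h7]
  have h8 : (0 : ℝ) ≤ ε * N := by positivity
  have h9 : (R : ℝ) * (ε * N) ≥ ε * N := by nlinarith
  have h11 : 0 ≤ R * C1 := by positivity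
  have h16 : (R : ℝ) * (m - m') + (R + 1) * m' ≤ (R + 1) * m := by nlinarith
  nlinarith

/-- **Linear relations between several windows of digits of algebraic numbers.** See the text at the
beginning of the file. -/
theorem result (n r : ℕ) (hn : 1 ≤ n) (hr : 1 ≤ r) (α : Fin n → ℝ)
    (halg : ∀ i, IsAlgebraic ℚ (α i))
    (hli : LinearIndependent ℚ (Fin.cons 1 α : Fin (n + 1) → ℝ)) (b : ℕ) (hb : 2 ≤ b) (ε : ℝ)
    (hε : 0 < ε) : ∃ C : ℝ, ∀ (N : ℕ) (w : Fin r → ℕ) (l : ℕ), IsWindows r w l N →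
      ((n * r : ℕ) : ℝ) / ((n * r : ℕ) + 1) * l - ε * N - C ≤ jointOrder b α w l ∧
      (jointOrder b α w l : ℝ) ≤ ((n * r : ℕ) : ℝ) / ((n * r : ℕ) + 1) * l + 1 := by
  obtain ⟨C, -, hC⟩ := lower n r hn hr α halg hli b hb ε hε
  exact ⟨C, fun N w l hW => ⟨hC N w l hW, upper b α w l⟩⟩

end Pool.Agent.Results.MP_c8ecb2_nt.SeveralWindows
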